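import Mathlib
import Pool.Agent.H76.Weyl.Cox

/-!
# Finite Weyl groups of Poisson manifolds of proper type are of Lie type

The Weyl group `W` of a Poisson manifold of proper type with leaf space `B` acts faithfully by
integral affine automorphisms on the simply connected integral affine manifold `X`, the orbifold
universal cover of `B`, it is generated by geometric reflections, and it is a Coxeter group whose
simple reflections are the reflections in the walls of a chamber.

We prove that if such a group `W` is finite, its Coxeter matrix is of Lie type. So the answer to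
the question is negative: there is no Poisson manifold of proper type whose Weyl group is finite but
not of Lie type; for instance the dihedral group of order ten does not occur.

Idea. Since `X` is simply connected, the fixed point set (mirror) of a reflection is connected and
separates `X` into two sides. If the mirrors of two reflections are disjoint, their product has
infinite order by the ping-pong argument. So any two simple reflections of a finite group `W` have
a common fixed point; the order of the product is the order of its linear part there, which is a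
product of two reflections in `GL_q(ℤ)`. Hence the orders are `2`, `3`, `4` or `6`, and the roots
and coroots in the lattice `ℤ^q` of integral tangent vectors, which are globally defined by means
of the developing map, give a Cartan matrix of finite type.
-/

set_option autoImplicit false

open Filter Topology Set Matrix

namespace Pool.Agent.Results.MP_f9c64b_gt.FiniteImpliesLieType

open Pool.Agent.H76.Weyl Pool.Agent.Helper741

/-- the functional `v ↦ β · v` -/
noncomputable def fnl {q : ℕ} (β : Fin q → ℤ) : (Fin q → ℝ) →ₗ[ℝ] ℝ :=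
  { toFun := fun v => zr β ⬝ᵥ v
    map_add' := fun v w => dotProduct_add _ _ _
    map_smul' := fun c v => by simp [dotProduct_smul] }

lemma fnl_apply {q : ℕ} (β : Fin q → ℤ) (v : Fin q → ℝ) : fnl β v = zr β ⬝ᵥ v := rfl

lemma zr_dot {q : ℕ} (β α : Fin q → ℤ) : zr β ⬝ᵥ zr α = ((β ⬝ᵥ α : ℤ) : ℝ) := by
  simp [zr, dotProduct]

/-- Let `W` be a finite group acting faithfully by integral affine automorphisms on the simply
connected integral affine manifold `X`. If `W` is a Coxeter group with Coxeter matrix `M` whose
simple reflections act on `X` as geometric reflections, then `M` is of Lie type. -/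
theorem result : ∀ (q : ℕ) (X : Type) [TopologicalSpace X] [T2Space X]
    [SecondCountableTopology X] [SimplyConnectedSpace X] (S : IntegralAffine q X)
    (W : Type) [Group W] [Finite W] [MulAction W X] [ContinuousConstSMul W X] [FaithfulSMul W X],
    (∀ w : W, S.IsAffine (fun x => w • x)) →
    ∀ (ι : Type) [Fintype ι] (M : CoxeterMatrix ι) (cs : CoxeterSystem M W),
      (∀ i, S.IsReflection (fun x => cs.simple i • x)) → IsLieType M := by
  classical
  intro q X _ _ _ _ S W _ _ _ _ _ haff ι _ M cs hrefl
  have := S.locPath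
  have := S.locCompact
  have hnormal : NormalSpace X := inferInstance
  obtain ⟨d, hd⟩ := S.exists_dev
  have hcont : ∀ w : W, Continuous fun x : X => w • x := fun w => continuous_const_smul w
  have hol := fun w : W => hd.exists_hol (hcont w) (haff w)
  choose A b hAb using hol
  have hA1 : A 1 = 1 := by
    obtain ⟨x₀⟩ : Nonempty X := inferInstance
    have h1 : ∀ᶠ y in 𝓝 x₀, aff (A 1) (b 1) (d y) = aff (1 : GL (Fin q) ℤ) 0 (d y) := by
      refine Eventually.of_forall fun y => ?_
      rw [← hAb, one_smul, aff_one]; rfl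
    exact (hd.unique h1).1
  have hAmul : ∀ w w', A (w * w') = A w * A w' := by
    intro w w'
    obtain ⟨x₀⟩ : Nonempty X := inferInstance
    have h1 : ∀ᶠ y in 𝓝 x₀, aff (A (w * w')) (b (w * w')) (d y) =
        aff (A w * A w') ((mr (A w)).mulVec (b w') + b w) (d y) := by
      refine Eventually.of_forall fun y => ?_
      rw [← aff_aff, ← hAb, ← hAb, ← hAb, mul_smul]
    exact (hd.unique h1).1
  let ρ : W →* Module.End ℝ (Fin q → ℝ) :=
    { toFun := fun w => (mr (A w)).mulVecLin
      map_one' := by rw [hA1, mr_one, Matrix.mulVecLin_one]; rfl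
      map_mul' := fun w w' => by rw [hAmul, mr_mul, Matrix.mulVecLin_mul]; rfl }
  have hρ : ∀ w v, ρ w v = (mr (A w)) *ᵥ v := fun w v => rfl
  -- the roots and coroots
  have hform := fun i => hd.refl_form (hcont (cs.simple i)) (hrefl i) (hAb (cs.simple i))
  have hfix : ∀ i, ∃ x₀ : X, cs.simple i • x₀ = x₀ := fun i => (hform i).2.1
  choose α β hαβ h2 using fun i => (hform i).2.2
  have hside := fun i => hd.exists_side (hcont (cs.simple i)) (hrefl i) (hAb (cs.simple i))
  -- common fixed points
  have hcommon : ∀ i j, i ≠ j → ∃ x : X, cs.simple i • x = x ∧ cs.simple j • x = x := by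
    intro i j hij
    by_contra hcon
    push Not at hcon
    obtain ⟨⟨φ, hφ, hφs, hφ0⟩, hci⟩ := hside i
    obtain ⟨⟨ψ, hψ, hψs, hψ0⟩, hcj⟩ := hside j
    obtain ⟨a, ha⟩ := hfix i
    obtain ⟨c, hc⟩ := hfix j
    have hk : 0 < orderOf (cs.simple j * cs.simple i) := orderOf_pos _
    refine pingpong hφ hψ hφs hψs hφ0 hψ0 hci hcj ha hc (fun x h h' => hcon x h h') _ hk ?_
    have h3 : ∀ (k : ℕ) (x : X), ((fun x : X => cs.simple j • x) ∘
        fun x : X => cs.simple i • x)^[k] x = (cs.simple j * cs.simple i) ^ k • x := by
      intro k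
      induction k with
      | zero => intro x; simp
      | succ k ih =>
        intro x
        rw [Function.iterate_succ_apply', ih, pow_succ', mul_smul, mul_smul]
        rfl
    rw [h3, pow_orderOf_eq_one, one_smul]
  -- the order of the linear part of the product
  have hord : ∀ i j, i ≠ j → orderOf (ρ (cs.simple i) * ρ (cs.simple j)) = M i j := by
    intro i j hij
    rw [← (order_simple cs hij).2, ← map_mul]
    apply Nat.dvd_antisymm
    · exact orderOf_map_dvd ρ _
    · apply orderOf_dvd_of_pow_eq_one
      obtain ⟨x₀, hx1, hx2⟩ := hcommon i j hij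
      set k := orderOf (ρ (cs.simple i * cs.simple j)) with hk
      set w := (cs.simple i * cs.simple j) ^ k with hw
      have h3 : ρ w = 1 := by rw [hw, map_pow, hk]; exact pow_orderOf_eq_one _
      have hwx : w • x₀ = x₀ := by
        have h4 : (cs.simple i * cs.simple j) • x₀ = x₀ := by rw [mul_smul, hx2, hx1]
        have h5 : ∀ n : ℕ, ((cs.simple i * cs.simple j) ^ n) • x₀ = x₀ := by
          intro n
          induction n with
          | zero => simp
          | succ n ih => rw [pow_succ, mul_smul, h4, ih]
        exact h5 k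
      have hb : ∀ x, d (w • x) = d x := by
        have h4 : ∀ x, d (w • x) = d x + b w := by
          intro x
          rw [hAb, aff_apply, ← hρ, h3, Module.End.one_apply]
        have h5 : b w = 0 := by
          have := h4 x₀
          rw [hwx] at this
          exact (left_eq_add.1 this)
        intro x
        rw [h4, h5, add_zero]
      have h6 : ∀ x : X, w • x = x := hd.eq_id (hcont w) hb hwx
      exact FaithfulSMul.eq_of_smul_eq_smul (α := X) fun x => by rw [h6, one_smul]
  obtain ⟨B, hsym, hpos, hinv⟩ := exists_inner ρ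
  have hs : ∀ i v, ρ (cs.simple i) v = v - fnl (β i) v • zr (α i) := fun i v => hαβ i v
  have hne1 : ∀ i j, i ≠ j → M i j ≠ 1 := fun i j hij => M.off_diagonal i j hij
  have hcases : ∀ i j, i ≠ j →
      ((β i ⬝ᵥ α j) * (β j ⬝ᵥ α i) = 0 ∧ M i j = 2) ∨
      ((β i ⬝ᵥ α j) * (β j ⬝ᵥ α i) = 1 ∧ M i j = 3) ∨
      ((β i ⬝ᵥ α j) * (β j ⬝ᵥ α i) = 2 ∧ M i j = 4) ∨
      ((β i ⬝ᵥ α j) * (β j ⬝ᵥ α i) = 3 ∧ M i j = 6) := by
    intro i j hij
    have h3 := pair_cases B hsym hpos (hinv (cs.simple i)) (hinv (cs.simple j)) (hs i)
      (h2 i) (hs j) (h2 j) (p := β i ⬝ᵥ α j) (r := β j ⬝ᵥ α i) (zr_dot _ _) (zr_dot _ _) (by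
        intro h
        have := hord i j hij
        rw [h, orderOf_one] at this
        exact hne1 i j hij this.symm)
    rwa [hord i j hij] at h3
  have hx : ∀ i, 0 < B (zr (α i)) (zr (α i)) := by
    intro i
    apply hpos
    intro h
    have := h2 i
    rw [h, dotProduct_zero] at this
    norm_num at this
  have hz : ∀ i j, ((β i ⬝ᵥ α j : ℤ) : ℝ) * B (zr (α i)) (zr (α i)) =
      2 * B (zr (α i)) (zr (α j)) := by
    intro i j
    have h3 := refl_rel B (hinv (cs.simple i)) (hs i) (h2 i) (zr (α j))
    rw [fnl_apply, zr_dot] at h3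
    rw [← h3, hsym]
  refine ⟨Matrix.of fun i j => if i = j then 2 else -|β i ⬝ᵥ α j|, ⟨?_, ?_, ?_⟩, ?_⟩
  · intro i; simp
  · intro i j hij
    simp [hij]
  · refine ⟨fun i => B (zr (α i)) (zr (α i)), hx, ?_, ?_⟩
    · intro i j
      by_cases hij : i = j
      · subst hij; rfl
      · simp only [Matrix.of_apply, if_neg hij, if_neg (Ne.symm hij), Int.cast_neg, Int.cast_abs]
        have e1 := hz i j
        have e2 := hz j i
        rw [hsym (zr (α j)) (zr (α i))] at e2
        have h3 : B (zr (α i)) (zr (α i)) * |((β i ⬝ᵥ α j : ℤ) : ℝ)| =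
            B (zr (α j)) (zr (α j)) * |((β j ⬝ᵥ α i : ℤ) : ℝ)| := by
          rw [← abs_of_pos (hx i), ← abs_mul, mul_comm, e1]
          conv_rhs => rw [← abs_of_pos (hx j), ← abs_mul, mul_comm, e2]
        linarith
    · intro v hv
      refine posdef_of_finite cs hx (P := fun i j => B (zr (α i)) (zr (α i)) *
        (((Matrix.of fun i j => if i = j then 2 else -|β i ⬝ᵥ α j|) : Matrix ι ι ℤ) i j : ℝ))
        ?_ ?_ hv
      · intro i j hij
        simp only [Matrix.of_apply, if_neg hij, Int.cast_neg, Int.cast_abs]
        rw [mul_neg, neg_inj]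
        have hM := (order_simple cs hij).1
        have h2M := two_le_of_ne M hij hM
        have hcc0 : 0 ≤ cc M i j := by
          apply Real.cos_nonneg_of_neg_pi_div_two_le_of_le
          · have : 0 ≤ Real.pi / (M i j : ℝ) := by positivity
            linarith [Real.pi_pos]
          · have h4 : (2 : ℝ) ≤ (M i j : ℝ) := by exact_mod_cast h2M
            exact div_le_div_of_nonneg_left Real.pi_pos.le two_pos h4
        have hcc2 : 4 * (cc M i j) ^ 2 = (((β i ⬝ᵥ α j) * (β j ⬝ᵥ α i) : ℤ) : ℝ) := by
          unfold cc
          rcases hcases i j hij with ⟨h3, h4⟩ | ⟨h3, h4⟩ | ⟨h3, h4⟩ | ⟨h3, h4⟩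
          · rw [h3, h4]; simp
          · rw [h3, h4]
            simp only [Nat.cast_ofNat, Real.cos_pi_div_three]
            norm_num
          · rw [h3, h4]
            simp only [Nat.cast_ofNat, Real.cos_pi_div_four]
            rw [div_pow, Real.sq_sqrt (by norm_num)]
            norm_num
          · rw [h3, h4]
            simp only [Nat.cast_ofNat, Real.cos_pi_div_six]
            rw [div_pow, Real.sq_sqrt (by norm_num)]
            norm_num
        have e1 := hz i j
        have e2 := hz j i
        rw [hsym (zr (α j)) (zr (α i))] at e2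
        set x := B (zr (α i)) (zr (α i)) with hxd
        set y := B (zr (α j)) (zr (α j)) with hyd
        set z := B (zr (α i)) (zr (α j)) with hzd
        have hx0 : 0 < x := hx i
        have hy0 : 0 < y := hx j
        have h3 : (x * |((β i ⬝ᵥ α j : ℤ) : ℝ)|) ^ 2 = (2 * cc M i j * (√x * √y)) ^ 2 := by
          rw [mul_pow, sq_abs, mul_pow, mul_pow, mul_pow, Real.sq_sqrt hx0.le,
            Real.sq_sqrt hy0.le]
          have h4 : (2 : ℝ) ^ 2 * (cc M i j) ^ 2 = 4 * (cc M i j) ^ 2 := by norm_num
          rw [h4, hcc2]
          push_cast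
          have h5 : (x * ((β i ⬝ᵥ α j : ℤ) : ℝ)) * (x * ((β i ⬝ᵥ α j : ℤ) : ℝ)) =
              (x * ((β i ⬝ᵥ α j : ℤ) : ℝ)) * (y * ((β j ⬝ᵥ α i : ℤ) : ℝ)) := by
            congr 1
            linarith
          linear_combination h5
        exact (sq_eq_sq₀ (mul_nonneg hx0.le (abs_nonneg _))
          (mul_nonneg (mul_nonneg two_pos.le hcc0)
            (mul_nonneg (Real.sqrt_nonneg _) (Real.sqrt_nonneg _)))).1 h3
      · intro i
        simp only [Matrix.of_apply, if_true]
        push_cast
        ring
  · intro i j hij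
    simp only [Matrix.of_apply, if_neg hij, if_neg (Ne.symm hij)]
    have h3 : -|β i ⬝ᵥ α j| * -|β j ⬝ᵥ α i| = |(β i ⬝ᵥ α j) * (β j ⬝ᵥ α i)| := by
      rw [abs_mul]; ring
    rw [h3]
    rcases hcases i j hij with ⟨h4, h5⟩ | ⟨h4, h5⟩ | ⟨h4, h5⟩ | ⟨h4, h5⟩
    · exact Or.inl ⟨by rw [h4]; rfl, h5⟩
    · exact Or.inr (Or.inl ⟨by rw [h4]; rfl, h5⟩)
    · exact Or.inr (Or.inr (Or.inl ⟨by rw [h4]; rfl, h5⟩))
    · exact Or.inr (Or.inr (Or.inr ⟨by rw [h4]; rfl, h5⟩))

end Pool.Agent.Results.MP_f9c64b_gt.FiniteImpliesLieType
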